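import Pool.Agent.H78.Fac.Op

/-!
Growth of the weighted `l^1` norm of the coefficients under the operators `L_m`.
-/

namespace Pool.H44.Fac

open Finset Polynomial Pool.H78.Fac

/-- the weighted norm -/
noncomputable def wn (M : ℕ) (θ : ℝ) (p : ℤ[X]) : ℝ :=
  ∑ e ∈ range M, |((p.coeff e : ℤ) : ℝ)| / θ ^ e

variable {M : ℕ} {θ : ℝ}

theorem wn_nonneg (hθ : 0 < θ) (p : ℤ[X]) : 0 ≤ wn M θ p :=
  sum_nonneg fun _ _ => by positivity

theorem wn_add (hθ : 0 < θ) (p q : ℤ[X]) : wn M θ (p + q) ≤ wn M θ p + wn M θ q := by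
  unfold wn
  rw [← sum_add_distrib]
  refine sum_le_sum fun e _ => ?_
  rw [← add_div, coeff_add]
  push_cast
  exact div_le_div_of_nonneg_right (abs_add_le _ _) (by positivity)

theorem wn_zero : wn M θ 0 = 0 := by simp [wn]

theorem wn_C (_hθ : 0 < θ) (c : ℤ) : wn M θ (C c) ≤ |(c : ℝ)| := by
  unfold wn
  have h : ∀ e ∈ range M, |(((C c : ℤ[X]).coeff e : ℤ) : ℝ)| / θ ^ e =
      if e = 0 then |(c : ℝ)| else 0 := by
    intro e _
    rw [coeff_C]
    split_ifs with h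
    · rw [h, pow_zero, div_one]
    · simp
  rw [sum_congr rfl h, sum_ite_eq']
  split_ifs
  · exact le_rfl
  · exact abs_nonneg _

theorem wn_X (hθ : 0 < θ) : wn M θ X ≤ 1 / θ := by
  unfold wn
  have h : ∀ e ∈ range M, |(((X : ℤ[X]).coeff e : ℤ) : ℝ)| / θ ^ e =
      if e = 1 then 1 / θ else 0 := by
    intro e _
    rw [coeff_X]
    split_ifs with h h' h'
    · rw [← h, pow_one]; simp
    · exact absurd h.symm h'
    · exact absurd h'.symm h
    · simp
  rw [sum_congr rfl h, sum_ite_eq']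
  split_ifs
  · exact le_rfl
  · positivity

/-- The Cauchy product on a triangle is at most the product of the sums. -/
theorem sum_conv_le (f g : ℕ → ℝ) (hf : ∀ i, 0 ≤ f i) (hg : ∀ i, 0 ≤ g i) (M : ℕ) :
    ∑ e ∈ range M, ∑ x ∈ antidiagonal e, f x.1 * g x.2 ≤
      (∑ i ∈ range M, f i) * ∑ j ∈ range M, g j := by
  have h1 : ∑ e ∈ range M, ∑ x ∈ antidiagonal e, f x.1 * g x.2 =
      ∑ k ∈ range M, ∑ e ∈ Ico k M, f k * g (e - k) := by
    simp_rw [Finset.Nat.sum_antidiagonal_eq_sum_range_succ_mk]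
    refine sum_comm' fun e k => ?_
    simp only [mem_range, mem_Ico]
    omega
  rw [h1, sum_mul]
  refine sum_le_sum fun k _ => ?_
  rw [← mul_sum]
  refine mul_le_mul_of_nonneg_left ?_ (hf k)
  rw [sum_Ico_eq_sum_range]
  have h2 : ∀ i ∈ range (M - k), g (k + i - k) = g i := fun i _ => by rw [Nat.add_sub_cancel_left]
  rw [sum_congr rfl h2]
  exact sum_le_sum_of_subset_of_nonneg (range_subset_range.2 (Nat.sub_le _ _)) fun i _ _ => hg i

theorem wn_mul (hθ : 0 < θ) (p q : ℤ[X]) : wn M θ (p * q) ≤ wn M θ p * wn M θ q := by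
  refine le_trans ?_ (sum_conv_le (fun i => |((p.coeff i : ℤ) : ℝ)| / θ ^ i)
    (fun i => |((q.coeff i : ℤ) : ℝ)| / θ ^ i) (fun i => by positivity)
    (fun i => by positivity) M)
  refine sum_le_sum fun e _ => ?_
  rw [coeff_mul, Int.cast_sum, div_le_iff₀ (by positivity)]
  refine (abs_sum_le_sum_abs _ _).trans ?_
  rw [sum_mul]
  refine sum_le_sum fun x hx => ?_
  rw [HasAntidiagonal.mem_antidiagonal] at hx
  rw [Int.cast_mul, abs_mul, ← hx, pow_add]
  refine le_of_eq ?_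
  field_simp

theorem wn_one (hθ : 0 < θ) : wn M θ 1 ≤ 1 := by
  have := wn_C (M := M) hθ 1
  simpa using this

theorem wn_C_mul (hθ : 0 < θ) (c : ℤ) (p : ℤ[X]) : wn M θ (C c * p) ≤ |(c : ℝ)| * wn M θ p :=
  (wn_mul hθ _ _).trans (mul_le_mul_of_nonneg_right (wn_C hθ c) (wn_nonneg hθ p))

theorem wn_sum (hθ : 0 < θ) {ι : Type*} (s : Finset ι) (f : ι → ℤ[X]) :
    wn M θ (∑ j ∈ s, f j) ≤ ∑ j ∈ s, wn M θ (f j) := by
  classical
  induction s using Finset.induction_on with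
  | empty => simp [wn_zero]
  | insert a s ha ih =>
    rw [sum_insert ha, sum_insert ha]
    exact (wn_add hθ _ _).trans (add_le_add le_rfl ih)

theorem wn_prod (hθ : 0 < θ) {ι : Type*} (s : Finset ι) (f : ι → ℤ[X]) (b : ℝ) (hb : 0 ≤ b)
    (hf : ∀ j ∈ s, wn M θ (f j) ≤ b) : wn M θ (∏ j ∈ s, f j) ≤ b ^ s.card := by
  classical
  induction s using Finset.induction_on with
  | empty => simpa using wn_one hθ
  | insert a s ha ih =>
    rw [prod_insert ha, card_insert_of_notMem ha, pow_succ, mul_comm (b ^ s.card)]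
    exact (wn_mul hθ _ _).trans (mul_le_mul (hf a (mem_insert_self _ _))
      (ih fun j hj => hf j (mem_insert_of_mem hj)) (wn_nonneg hθ _) hb)

theorem wn_deriv (hθ : 0 < θ) (p : ℤ[X]) (D : ℕ) (hD : p.natDegree ≤ D) (hDM : D < M) :
    wn M θ (derivative p) ≤ θ * D * wn M θ p := by
  obtain ⟨M, rfl⟩ : ∃ M', M = M' + 1 := ⟨M - 1, by omega⟩
  have h1 : wn (M + 1) θ (derivative p) ≤
      ∑ e ∈ range (M + 1), θ * D * (|((p.coeff (e + 1) : ℤ) : ℝ)| / θ ^ (e + 1)) := by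
    refine sum_le_sum fun e _ => ?_
    rw [coeff_derivative]
    push_cast
    rw [abs_mul, div_le_iff₀ (by positivity)]
    have e2 : θ * D * (|((p.coeff (e + 1) : ℤ) : ℝ)| / θ ^ (e + 1)) * θ ^ e =
        D * |((p.coeff (e + 1) : ℤ) : ℝ)| := by
      rw [pow_succ]; field_simp
    rw [e2, abs_of_nonneg (by positivity : (0 : ℝ) ≤ (e : ℝ) + 1)]
    by_cases he : e + 1 ≤ D
    · have : ((e : ℝ) + 1) ≤ D := by exact_mod_cast he
      nlinarith [abs_nonneg ((p.coeff (e + 1) : ℤ) : ℝ)]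
    · have : p.coeff (e + 1) = 0 := coeff_eq_zero_of_natDegree_lt (by omega)
      rw [this]; simp
  refine h1.trans ?_
  rw [← mul_sum]
  refine mul_le_mul_of_nonneg_left ?_ (by positivity)
  have h2 : ∑ e ∈ range (M + 1), |((p.coeff (e + 1) : ℤ) : ℝ)| / θ ^ (e + 1) =
      ∑ e ∈ range M, |((p.coeff (e + 1) : ℤ) : ℝ)| / θ ^ (e + 1) := by
    rw [sum_range_succ]
    have : p.coeff (M + 1) = 0 := coeff_eq_zero_of_natDegree_lt (by omega)
    rw [this]; simp
  rw [h2]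
  unfold wn
  rw [sum_range_succ']
  have : 0 ≤ |((p.coeff 0 : ℤ) : ℝ)| / θ ^ 0 := by positivity
  linarith

section ops

variable {r h m : ℕ}

theorem wn_fac (hr : 2 ≤ r) (hh : 1 ≤ h) (j : ℕ) (hj : j < h) :
    wn M (4 * (r : ℝ) ^ 2 * h) (fac ℤ r j) ≤ 5 / 4 := by
  have hr' : (0 : ℝ) < r := by exact_mod_cast (by omega : 0 < r)
  have hh' : (0 : ℝ) < h := by exact_mod_cast (by omega : 0 < h)
  have hθ : 0 < 4 * (r : ℝ) ^ 2 * h := by positivity
  unfold fac
  refine (wn_add hθ _ _).trans ?_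
  have h1 := wn_one (M := M) hθ
  have h2 : wn M (4 * (r : ℝ) ^ 2 * h) (C (((r ^ 2 * (j + 1) : ℕ)) : ℤ) * X) ≤ 1 / 4 := by
    refine (wn_C_mul hθ _ _).trans ?_
    refine (mul_le_mul_of_nonneg_left (wn_X hθ) (abs_nonneg _)).trans ?_
    rw [mul_one_div, div_le_iff₀ hθ]
    push_cast
    rw [abs_of_nonneg (by positivity)]
    have : ((j : ℝ) + 1) ≤ h := by exact_mod_cast hj
    have h3 : (r : ℝ) ^ 2 * ((j : ℝ) + 1) ≤ (r : ℝ) ^ 2 * h :=
      mul_le_mul_of_nonneg_left this (by positivity)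
    linarith
  linarith

theorem wn_DD (hr : 2 ≤ r) (hh : 1 ≤ h) : wn M (4 * (r : ℝ) ^ 2 * h) (DD ℤ r h) ≤ 2 ^ h := by
  have hr' : (0 : ℝ) < r := by exact_mod_cast (by omega : 0 < r)
  have hh' : (0 : ℝ) < h := by exact_mod_cast (by omega : 0 < h)
  have hθ : 0 < 4 * (r : ℝ) ^ 2 * h := by positivity
  have h1 := wn_prod (M := M) hθ (range h) (fun j => fac ℤ r j) (5 / 4) (by norm_num)
    fun j hj => wn_fac hr hh j (mem_range.1 hj)
  rw [card_range] at h1
  exact h1.trans (pow_le_pow_left₀ (by norm_num) (by norm_num) h)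

theorem wn_TT (hr : 2 ≤ r) (hh : 1 ≤ h) (hm : m ≤ h) :
    wn M (4 * (r : ℝ) ^ 2 * h) (TT ℤ r h m) ≤ 2 ^ h * ((r : ℝ) ^ 2 * h * h) := by
  have hr' : (0 : ℝ) < r := by exact_mod_cast (by omega : 0 < r)
  have hh' : (0 : ℝ) < h := by exact_mod_cast (by omega : 0 < h)
  have hθ : 0 < 4 * (r : ℝ) ^ 2 * h := by positivity
  unfold TT
  refine (wn_sum hθ _ _).trans ?_
  have h1 : ∀ j ∈ range m, wn M (4 * (r : ℝ) ^ 2 * h) (C (((r * (j + 1) : ℕ)) : ℤ) *
      ∏ l ∈ (range h).erase j, fac ℤ r l) ≤ (r : ℝ) ^ 2 * h * 2 ^ h := by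
    intro j hj
    have hj' : j < m := mem_range.1 hj
    refine (wn_C_mul hθ _ _).trans ?_
    have h2 := wn_prod (M := M) hθ ((range h).erase j) (fun j => fac ℤ r j) (5 / 4) (by norm_num)
      fun l hl => wn_fac hr hh l (mem_range.1 (mem_of_mem_erase hl))
    have h3 : (5 / 4 : ℝ) ^ ((range h).erase j).card ≤ 2 ^ h := by
      have h4 : ((range h).erase j).card ≤ h := by
        have := card_erase_le (s := range h) (a := j)
        rwa [card_range] at this
      calc (5 / 4 : ℝ) ^ ((range h).erase j).card ≤ 2 ^ ((range h).erase j).card :=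
            pow_le_pow_left₀ (by norm_num) (by norm_num) _
        _ ≤ 2 ^ h := pow_le_pow_right₀ (by norm_num) h4
    have h5 : |((((r * (j + 1) : ℕ)) : ℤ) : ℝ)| ≤ (r : ℝ) ^ 2 * h := by
      push_cast
      rw [abs_of_nonneg (by positivity)]
      have h6 : ((j : ℝ) + 1) ≤ h := by
        have : j + 1 ≤ h := by omega
        exact_mod_cast this
      have h7 : (r : ℝ) ≤ (r : ℝ) ^ 2 := by
        have : (1 : ℝ) ≤ r := by exact_mod_cast (by omega : 1 ≤ r)
        nlinarith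
      exact mul_le_mul h7 h6 (by positivity) (by positivity)
    exact mul_le_mul h5 (h2.trans h3) (wn_nonneg hθ _) (by positivity)
  refine (sum_le_sum h1).trans ?_
  rw [sum_const, card_range, nsmul_eq_mul]
  have h8 : (m : ℝ) ≤ h := by exact_mod_cast hm
  have h9 : (0 : ℝ) ≤ (r : ℝ) ^ 2 * h * 2 ^ h := by positivity
  have h10 := mul_le_mul_of_nonneg_right h8 h9
  calc (m : ℝ) * ((r : ℝ) ^ 2 * h * 2 ^ h) ≤ h * ((r : ℝ) ^ 2 * h * 2 ^ h) := h10
    _ = 2 ^ h * ((r : ℝ) ^ 2 * h * h) := by ring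

theorem natDegree_fac_le (r j : ℕ) : (fac ℤ r j).natDegree ≤ 1 := by
  unfold fac
  refine (natDegree_add_le _ _).trans (max_le (by simp) ?_)
  exact (natDegree_C_mul_le _ _).trans natDegree_X_le

theorem natDegree_prod_fac_le (r : ℕ) (s : Finset ℕ) :
    (∏ j ∈ s, fac ℤ r j).natDegree ≤ s.card := by
  refine (natDegree_prod_le _ _).trans ?_
  refine (sum_le_sum fun j _ => natDegree_fac_le r j).trans ?_
  simp

theorem natDegree_LL_le (_hm : m ≤ h) (p : ℤ[X]) :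
    (LL ℤ r h m p).natDegree ≤ p.natDegree + h := by
  unfold LL
  refine (natDegree_add_le _ _).trans (max_le ?_ ?_)
  · refine natDegree_mul_le.trans ?_
    have h1 := natDegree_prod_fac_le r (range h)
    rw [card_range] at h1
    have h2 : (derivative p).natDegree ≤ p.natDegree := (natDegree_derivative_le p).trans (by omega)
    unfold DD
    omega
  · refine natDegree_mul_le.trans ?_
    have h1 : (TT ℤ r h m).natDegree ≤ h := by
      unfold TT
      refine natDegree_sum_le_of_forall_le _ _ fun j hj => ?_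
      refine (natDegree_C_mul_le _ _).trans ?_
      refine (natDegree_prod_fac_le r _).trans ?_
      have := card_erase_le (s := range h) (a := j)
      rwa [card_range] at this
    omega

theorem wn_LL {X d : ℕ} (hr : 2 ≤ r) (hh : 1 ≤ h) (hm : m ≤ h) (hhX : h ≤ X) (hdX : d ≤ X)
    (p : ℤ[X]) (hd : p.natDegree ≤ d) :
    wn (X + 1) (4 * (r : ℝ) ^ 2 * h) (LL ℤ r h m p) ≤
      (2 ^ h * (5 * (r : ℝ) ^ 2 * h * X)) * wn (X + 1) (4 * (r : ℝ) ^ 2 * h) p := by
  have hr' : (0 : ℝ) < r := by exact_mod_cast (by omega : 0 < r)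
  have hh' : (0 : ℝ) < h := by exact_mod_cast (by omega : 0 < h)
  have hθ : 0 < 4 * (r : ℝ) ^ 2 * h := by positivity
  have hp0 := wn_nonneg (M := X + 1) hθ p
  unfold LL
  refine (wn_add hθ _ _).trans ?_
  have h1 : wn (X + 1) (4 * (r : ℝ) ^ 2 * h) (DD ℤ r h * derivative p) ≤
      2 ^ h * ((4 * (r : ℝ) ^ 2 * h) * X * wn (X + 1) (4 * (r : ℝ) ^ 2 * h) p) := by
    refine (wn_mul hθ _ _).trans ?_
    exact mul_le_mul (wn_DD hr hh) (wn_deriv hθ p X (hd.trans hdX) (by omega))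
      (wn_nonneg hθ _) (by positivity)
  have h2 : wn (X + 1) (4 * (r : ℝ) ^ 2 * h) (TT ℤ r h m * p) ≤
      2 ^ h * ((r : ℝ) ^ 2 * h * h) * wn (X + 1) (4 * (r : ℝ) ^ 2 * h) p := by
    refine (wn_mul hθ _ _).trans ?_
    exact mul_le_mul_of_nonneg_right (wn_TT hr hh hm) hp0
  have h3 : 2 ^ h * ((r : ℝ) ^ 2 * h * h) * wn (X + 1) (4 * (r : ℝ) ^ 2 * h) p ≤
      2 ^ h * ((r : ℝ) ^ 2 * h * X) * wn (X + 1) (4 * (r : ℝ) ^ 2 * h) p := by
    have : (h : ℝ) ≤ X := by exact_mod_cast hhX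
    refine mul_le_mul_of_nonneg_right ?_ hp0
    refine mul_le_mul_of_nonneg_left ?_ (by positivity)
    exact mul_le_mul_of_nonneg_left this (by positivity)
  calc _ ≤ 2 ^ h * ((4 * (r : ℝ) ^ 2 * h) * X * wn (X + 1) (4 * (r : ℝ) ^ 2 * h) p) +
        2 ^ h * ((r : ℝ) ^ 2 * h * X) * wn (X + 1) (4 * (r : ℝ) ^ 2 * h) p :=
          add_le_add h1 (h2.trans h3)
    _ = _ := by ring

end ops

/-- (G) growth of the weighted norm under the operators -/
theorem norm_growth {r h m X d s : ℕ} (hr : 2 ≤ r) (hh : 1 ≤ h) (hm : m ≤ h) (hhX : h ≤ X)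
    (hds : d + s * h ≤ X) (p : ℤ[X]) (hd : p.natDegree ≤ d) {B : ℝ}
    (hB : ∀ e, |((p.coeff e : ℤ) : ℝ)| ≤ B * (4 * (r : ℝ) ^ 2 * h) ^ e) :
    ((LL ℤ r h m)^[s] p).natDegree ≤ d + s * h ∧
      ∑ e ∈ range (X + 1), |((((LL ℤ r h m)^[s] p).coeff e : ℤ) : ℝ)| / (4 * (r : ℝ) ^ 2 * h) ^ e
        ≤ (2 ^ h * (5 * (r : ℝ) ^ 2 * h * X)) ^ s * ((d + 1) * B) := by
  have hr' : (0 : ℝ) < r := by exact_mod_cast (by omega : 0 < r)
  have hh' : (0 : ℝ) < h := by exact_mod_cast (by omega : 0 < h)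
  have hθ : 0 < 4 * (r : ℝ) ^ 2 * h := by positivity
  induction s with
  | zero =>
    refine ⟨by simpa using hd, ?_⟩
    rw [pow_zero, one_mul, Function.iterate_zero, id]
    have hdX : d ≤ X := by omega
    have h1 : ∑ e ∈ range (X + 1), |((p.coeff e : ℤ) : ℝ)| / (4 * (r : ℝ) ^ 2 * h) ^ e =
        ∑ e ∈ range (d + 1), |((p.coeff e : ℤ) : ℝ)| / (4 * (r : ℝ) ^ 2 * h) ^ e := by
      refine (sum_subset (range_subset_range.2 (by omega)) fun e _ he => ?_).symm
      have : p.coeff e = 0 := by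
        refine coeff_eq_zero_of_natDegree_lt ?_
        rw [mem_range, not_lt] at he
        omega
      rw [this]; simp
    rw [h1]
    have h2 : ∀ e ∈ range (d + 1), |((p.coeff e : ℤ) : ℝ)| / (4 * (r : ℝ) ^ 2 * h) ^ e ≤ B := by
      intro e _
      rw [div_le_iff₀ (by positivity)]
      exact hB e
    refine (sum_le_sum h2).trans ?_
    rw [sum_const, card_range, nsmul_eq_mul]
    push_cast
    exact le_rfl
  | succ s ih =>
    have hs : d + s * h ≤ X := by
      have : d + (s + 1) * h = d + s * h + h := by ring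
      omega
    obtain ⟨ih1, ih2⟩ := ih hs
    rw [Function.iterate_succ_apply']
    refine ⟨?_, ?_⟩
    · refine (natDegree_LL_le hm _).trans ?_
      have : d + (s + 1) * h = d + s * h + h := by ring
      omega
    · have h3 := wn_LL hr hh hm hhX hs _ ih1
      refine h3.trans ?_
      have h4 : (2 ^ h * (5 * (r : ℝ) ^ 2 * h * X)) ^ (s + 1) * ((d + 1) * B) =
          (2 ^ h * (5 * (r : ℝ) ^ 2 * h * X)) *
            ((2 ^ h * (5 * (r : ℝ) ^ 2 * h * X)) ^ s * ((d + 1) * B)) := by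
        rw [pow_succ]; ring
      rw [h4]
      exact mul_le_mul_of_nonneg_left ih2 (by positivity)

end Pool.H44.Fac
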