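import Mathlib

/-!
Reduction of the equation `P(x) = n!` to a statement on the distance of `(K n!)^(1/r)` to the
integers.
-/

namespace Pool.H44.Fac

open Polynomial

/-- Polynomial growth. -/
theorem eval_le (T : ℤ[X]) (m : ℕ) (hT : T.natDegree ≤ m) :
    ∃ B : ℝ, 0 ≤ B ∧ ∀ x : ℤ, |((T.eval x : ℤ) : ℝ)| ≤ B * (max 1 |(x : ℝ)|) ^ m := by
  refine ⟨∑ i ∈ Finset.range (m + 1), |((T.coeff i : ℤ) : ℝ)|,
    Finset.sum_nonneg fun _ _ => abs_nonneg _, fun x => ?_⟩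
  rw [eval_eq_sum_range' (Nat.lt_succ_of_le hT) x]
  push_cast
  refine (Finset.abs_sum_le_sum_abs _ _).trans ?_
  rw [Finset.sum_mul]
  refine Finset.sum_le_sum fun i hi => ?_
  rw [abs_mul, abs_pow]
  refine mul_le_mul_of_nonneg_left ?_ (abs_nonneg _)
  have hi' : i ≤ m := Nat.lt_succ_iff.1 (Finset.mem_range.1 hi)
  exact (pow_le_pow_left₀ (abs_nonneg _) (le_max_right _ _) _).trans
    (pow_le_pow_right₀ (le_max_left _ _) hi')

/-- The coefficients of a power of a linear polynomial. -/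
theorem coeff_lin_pow (u b : ℤ) (r N : ℕ) :
    ((C u * X + C b) ^ r).coeff N = b ^ (r - N) * (r.choose N : ℤ) * u ^ N := by
  have h : (C u * X + C b : ℤ[X]) ^ r = ((X + C b) ^ r).comp (C u * X) := by
    rw [pow_comp, add_comp, X_comp, C_comp]
  rw [h, comp_C_mul_X_coeff, coeff_X_add_C_pow]

/-- The first two coefficients cancel. -/
theorem natDegree_diff (P : ℤ[X]) (k : ℕ) (hk : P.natDegree = k + 2) :
    ((C (((k + 2 : ℕ) : ℤ) * P.leadingCoeff) * X + C (P.coeff (k + 1))) ^ (k + 2) -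
      C (((k + 2 : ℕ) : ℤ) ^ (k + 2) * P.leadingCoeff ^ (k + 1)) * P).natDegree ≤ k := by
  rw [natDegree_le_iff_coeff_eq_zero]
  intro N hN
  rw [coeff_sub, coeff_C_mul, coeff_lin_pow]
  rcases Nat.lt_or_ge N (k + 2) with h1 | h1
  · have : N = k + 1 := by omega
    subst this
    have e1 : k + 2 - (k + 1) = 1 := by omega
    have e2 : (k + 2).choose (k + 1) = k + 2 := Nat.choose_succ_self_right (k + 1)
    rw [e1, e2, mul_pow]
    ring
  · rcases Nat.lt_or_ge (k + 2) N with h2 | h2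
    · have e2 : (k + 2).choose N = 0 := Nat.choose_eq_zero_of_lt h2
      have e3 : P.coeff N = 0 := coeff_eq_zero_of_natDegree_lt (by omega)
      rw [e2, e3]
      simp
    · have : N = k + 2 := by omega
      subst this
      have e3 : P.coeff (k + 2) = P.leadingCoeff := by rw [leadingCoeff, hk]
      rw [e3, Nat.sub_self, Nat.choose_self, mul_pow]
      push_cast
      ring

/-- Solutions are not larger than a constant times `(n!)^(1/r)`. -/
theorem size_le (P : ℤ[X]) (k : ℕ) (hk : P.natDegree = k + 2) :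
    ∃ C : ℝ, 1 ≤ C ∧ ∀ (x : ℤ) (w : ℝ), 1 ≤ w → |((P.eval x : ℤ) : ℝ)| ≤ w ^ (k + 2) →
      max 1 |(x : ℝ)| ≤ C * w := by
  have ha : P.leadingCoeff ≠ 0 := by
    rw [leadingCoeff_ne_zero]
    intro h
    rw [h, natDegree_zero] at hk
    omega
  have hd : P.eraseLead.natDegree ≤ k + 1 := by
    have := eraseLead_natDegree_le P
    omega
  obtain ⟨B, hB0, hB⟩ := eval_le P.eraseLead (k + 1) hd
  refine ⟨2 * B + 2, by linarith, fun x w hw h => ?_⟩
  have hw0 : 0 < w := by linarith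
  refine max_le (by nlinarith) ?_
  by_contra hcon
  rw [not_le] at hcon
  have hx1 : 2 * B + 2 < |(x : ℝ)| := by nlinarith
  have hx2 : 2 * w < |(x : ℝ)| := by nlinarith
  have hx0 : 0 < |(x : ℝ)| := by linarith
  have hmax : max 1 |(x : ℝ)| = |(x : ℝ)| := max_eq_right (by linarith)
  have hBx := hB x
  rw [hmax] at hBx
  have he : P.eval x = P.eraseLead.eval x + P.leadingCoeff * x ^ (k + 2) := by
    conv_lhs => rw [← P.eraseLead_add_monomial_natDegree_leadingCoeff]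
    rw [eval_add, eval_monomial, hk]
  have he' : ((P.leadingCoeff : ℤ) : ℝ) * (x : ℝ) ^ (k + 2) =
      ((P.eval x : ℤ) : ℝ) - ((P.eraseLead.eval x : ℤ) : ℝ) := by
    rw [he]; push_cast; ring
  have h1 : |(x : ℝ)| ^ (k + 2) ≤ |((P.leadingCoeff : ℤ) : ℝ) * (x : ℝ) ^ (k + 2)| := by
    rw [abs_mul, abs_pow]
    have : (1 : ℝ) ≤ |((P.leadingCoeff : ℤ) : ℝ)| := by
      have h3 : (1 : ℤ) ≤ |P.leadingCoeff| := Int.one_le_abs ha
      exact_mod_cast h3
    exact le_mul_of_one_le_left (by positivity) this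
  have h2 : |(x : ℝ)| ^ (k + 2) ≤ w ^ (k + 2) + B * |(x : ℝ)| ^ (k + 1) := by
    refine h1.trans ?_
    rw [he']
    exact (abs_sub _ _).trans (add_le_add h hBx)
  have h3 : w ^ (k + 2) ≤ |(x : ℝ)| ^ (k + 2) / 2 := by
    have h4 : (2 * w) ^ (k + 2) ≤ |(x : ℝ)| ^ (k + 2) := pow_le_pow_left₀ (by linarith) hx2.le _
    rw [mul_pow] at h4
    have h5 : (2 : ℝ) ≤ 2 ^ (k + 2) := by
      have : (2 : ℝ) ^ 1 ≤ 2 ^ (k + 2) := pow_le_pow_right₀ (by norm_num) (by omega)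
      simpa using this
    have h6 : 0 < w ^ (k + 2) := by positivity
    nlinarith
  have h4 : 0 < |(x : ℝ)| ^ (k + 1) := by positivity
  have h5 : |(x : ℝ)| ^ (k + 2) = |(x : ℝ)| ^ (k + 1) * |(x : ℝ)| := by ring
  have h6 : |(x : ℝ)| ^ (k + 1) * (|(x : ℝ)| - 2 * B) ≤ 0 := by nlinarith
  nlinarith

/-- (E) reduction of the polynomial equation -/
theorem poly_reduce (P : ℤ[X]) (hP : 2 ≤ P.natDegree) :
    ∃ K C0 : ℝ, 1 ≤ K ∧ 0 < C0 ∧ ∃ n0 : ℕ, ∀ n ≥ n0,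
      (∃ x : ℤ, P.eval x = (n.factorial : ℤ)) →
      ∃ z : ℤ, |(z : ℝ) - (K * (n.factorial : ℝ)) ^ (1 / (P.natDegree : ℝ))|
        ≤ C0 / (K * (n.factorial : ℝ)) ^ (1 / (P.natDegree : ℝ)) := by
  obtain ⟨k, hk⟩ : ∃ k, P.natDegree = k + 2 := ⟨P.natDegree - 2, by omega⟩
  have ha : P.leadingCoeff ≠ 0 := by
    rw [leadingCoeff_ne_zero]
    intro h
    rw [h, natDegree_zero] at hk
    omega
  set a : ℤ := P.leadingCoeff with hadef
  set b : ℤ := P.coeff (k + 1) with hbdef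
  set A : ℤ := ((k + 2 : ℕ) : ℤ) ^ (k + 2) * a ^ (k + 1) with hA
  have hA0 : A ≠ 0 := by
    refine mul_ne_zero (pow_ne_zero _ ?_) (pow_ne_zero _ ha)
    exact_mod_cast (by omega : k + 2 ≠ 0)
  obtain ⟨B, hB0, hB⟩ := eval_le _ k (natDegree_diff P k hk)
  obtain ⟨D, hD1, hD⟩ := size_le P k hk
  have hK1 : (1 : ℝ) ≤ |(A : ℝ)| := by
    have h3 : (1 : ℤ) ≤ |A| := Int.one_le_abs hA0
    exact_mod_cast h3
  refine ⟨|(A : ℝ)|, B * D ^ k + 1, hK1, by positivity, 0, fun n _ => ?_⟩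
  rintro ⟨x, hx⟩
  have hn1 : (1 : ℝ) ≤ (n.factorial : ℝ) := by exact_mod_cast n.factorial_pos
  have hKn : 1 ≤ |(A : ℝ)| * (n.factorial : ℝ) := by nlinarith
  rw [hk, one_div]
  set w : ℝ := (|(A : ℝ)| * (n.factorial : ℝ)) ^ (((k + 2 : ℕ) : ℝ)⁻¹) with hw
  have hw1 : 1 ≤ w := Real.one_le_rpow hKn (by positivity)
  have hw0 : 0 < w := by linarith
  have hwp : w ^ (k + 2) = |(A : ℝ)| * (n.factorial : ℝ) :=
    Real.rpow_inv_natCast_pow (by linarith) (by omega)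
  set ζ : ℤ := ((k + 2 : ℕ) : ℤ) * a * x + b with hζ
  have hQ : ((((C (((k + 2 : ℕ) : ℤ) * a) * X + C b) ^ (k + 2) - C A * P).eval x : ℤ) : ℝ) =
      (ζ : ℝ) ^ (k + 2) - (A : ℝ) * (n.factorial : ℝ) := by
    rw [eval_sub, eval_pow, eval_add, eval_mul, eval_mul, eval_C, eval_C, eval_C, eval_X, hx]
    rw [hζ]
    push_cast
    ring
  have hBx := hB x
  rw [hQ] at hBx
  have hMx : max 1 |(x : ℝ)| ≤ D * w := by
    refine hD x w hw1 ?_
    rw [hx, hwp]
    rw [Int.cast_natCast, abs_of_nonneg (by positivity)]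
    nlinarith
  refine ⟨|ζ|, ?_⟩
  set z : ℝ := ((|ζ| : ℤ) : ℝ) with hz
  have hz0 : 0 ≤ z := by
    rw [hz]; exact_mod_cast abs_nonneg ζ
  have hzp : z ^ (k + 2) = |(ζ : ℝ) ^ (k + 2)| := by
    rw [abs_pow, hz]; push_cast; rfl
  have h1 : |z ^ (k + 2) - w ^ (k + 2)| ≤ B * (D * w) ^ k := by
    have h2 : w ^ (k + 2) = |(A : ℝ) * (n.factorial : ℝ)| := by
      rw [hwp, abs_mul, abs_of_nonneg (by positivity : (0 : ℝ) ≤ (n.factorial : ℝ))]
    rw [hzp, h2]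
    refine (abs_abs_sub_abs_le_abs_sub _ _).trans (hBx.trans ?_)
    exact mul_le_mul_of_nonneg_left (pow_le_pow_left₀ (by positivity) hMx _) hB0
  have h2 : w ^ (k + 1) * |z - w| ≤ |z ^ (k + 2) - w ^ (k + 2)| := by
    rw [← (Commute.all z w).geom_sum₂_mul (k + 2), abs_mul]
    refine mul_le_mul_of_nonneg_right ?_ (abs_nonneg _)
    refine le_trans ?_ (le_abs_self _)
    have h3 := Finset.single_le_sum (f := fun i => z ^ i * w ^ (k + 2 - 1 - i))
      (fun i _ => by positivity) (Finset.mem_range.2 (Nat.succ_pos (k + 1)))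
    simpa using h3
  have h3 : w ^ (k + 1) * |z - w| ≤ B * (D * w) ^ k := h2.trans h1
  rw [le_div_iff₀ hw0]
  have h4 : w ^ k * (|z - w| * w) ≤ w ^ k * (B * D ^ k) := by
    calc w ^ k * (|z - w| * w) = w ^ (k + 1) * |z - w| := by ring
      _ ≤ B * (D * w) ^ k := h3
      _ = w ^ k * (B * D ^ k) := by rw [mul_pow]; ring
  have h5 := le_of_mul_le_mul_left h4 (by positivity : 0 < w ^ k)
  linarith

end Pool.H44.Fac
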